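import Mathlib
import Pool.Agent.H270R2.GEN.Defs

/-! ROOM GEN, task W1 (expansion of words).  Owner: helper794. -/

set_option autoImplicit false

open scoped ComplexOrder Topology BoundedContinuousFunction
open Filter

noncomputable section

namespace Pool.Agent.H270G

open Pool.Agent.H467F Pool.Agent.H735G

variable {A : Type} [CStarAlgebra A]

namespace W1aux

lemma norm_one_le' : ‖(1 : A)‖ ≤ 1 := by
  rcases subsingleton_or_nontrivial A with h | h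
  · have : (1 : A) = 0 := Subsingleton.elim _ _
    rw [this]; simp
  · exact (CStarRing.norm_one (E := A)).le

lemma mul_le1 {x y : A} (hx : ‖x‖ ≤ 1) (hy : ‖y‖ ≤ 1) : ‖x * y‖ ≤ 1 :=
  (norm_mul_le _ _).trans (mul_le_one₀ hx (norm_nonneg _) hy)

lemma mul_le {x y : A} {N : ℝ} (hx : ‖x‖ ≤ 1) (hy : ‖y‖ ≤ N) : ‖x * y‖ ≤ N := by
  calc ‖x * y‖ ≤ ‖x‖ * ‖y‖ := norm_mul_le _ _
    _ ≤ 1 * ‖y‖ := by gcongr
    _ = ‖y‖ := one_mul _
    _ ≤ N := hy

lemma cl_le (c : Fin 4 → A) (hc : ∀ i, ‖c i‖ ≤ 1) (i : Fin 4) (e : Bool) : ‖cl c i e‖ ≤ 1 := by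
  unfold cl; split_ifs
  · exact hc i
  · rw [norm_star]; exact hc i

lemma smul_le {z : ℂ} {x : A} {p q : ℝ} (hz : ‖z‖ ≤ p) (hx : ‖x‖ ≤ q) : ‖z • x‖ ≤ p * q := by
  rw [norm_smul]
  exact mul_le_mul hz hx (norm_nonneg _) ((norm_nonneg _).trans hz)

end W1aux

open W1aux

/-- W1': bounds. -/
theorem wv_bounds {J : Type} (c : Fin 4 → A) (hc : ∀ i, ‖c i‖ ≤ 1) (y : J → A)
    (hy : ∀ j, ‖y j‖ ≤ 1) (V : A) (hV : ‖V‖ ≤ 1) (i : Fin 4) (L : List (Lt J)) :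
    ‖wv c y L‖ ≤ 1 ∧ ‖D1 c y i V L‖ ≤ L.length ∧ ‖D2 c y i V L‖ ≤ (L.length : ℝ) ^ 2 ∧
      cnt i L ≤ L.length := by
  induction L with
  | nil => simp [wv, D1, D2, cnt, norm_one_le']
  | cons p L ih =>
    obtain ⟨h1, h2, h3, h4⟩ := ih
    have hcl := cl_le c hc p.1 p.2.1
    have hyp := hy p.2.2
    have hcy : ‖cl c p.1 p.2.1 * y p.2.2‖ ≤ 1 := mul_le1 hcl hyp
    have hT : ‖c i * V * y p.2.2‖ ≤ 1 := mul_le1 (mul_le1 (hc i) hV) hyp
    have hs : ‖star (c i)‖ ≤ 1 := by rw [norm_star]; exact hc i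
    have hF : ‖V * star (c i) * y p.2.2‖ ≤ 1 := mul_le1 (mul_le1 hV hs) hyp
    have hn0 : (0 : ℝ) ≤ (L.length : ℝ) := Nat.cast_nonneg _
    refine ⟨?_, ?_, ?_, ?_⟩
    · simp only [wv]
      exact mul_le1 hcy h1
    · simp only [D1, List.length_cons, Nat.cast_add, Nat.cast_one]
      refine (norm_add_le _ _).trans (add_le_add (mul_le hcy h2) ?_)
      split_ifs
      · exact mul_le hT h1
      · rw [norm_neg]; exact mul_le hF h1
      · simp
    · simp only [D2, List.length_cons, Nat.cast_add, Nat.cast_one]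
      have : ‖(if p.1 = i then
        (if p.2.1 = true then c i * V * y p.2.2 * D1 c y i V L
          else -(V * star (c i) * y p.2.2 * D1 c y i V L)) else 0)‖ ≤ (L.length : ℝ) := by
        split_ifs
        · exact mul_le hT h2
        · rw [norm_neg]; exact mul_le hF h2
        · simp
      refine (norm_add_le _ _).trans ((add_le_add (mul_le hcy h3) this).trans ?_)
      nlinarith
    · simp only [cnt, List.length_cons]
      split_ifs <;> omega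

namespace W1aux

lemma core (x V w d1 d2 r : A) (s : ℂ) (a b μ n ρ : ℝ) (hb0 : 0 ≤ b) (hb1 : b ≤ 1) (hn : 0 ≤ n)
    (hs : s * s = -((b ^ 2 : ℝ) : ℂ)) (hsn : ‖s‖ ≤ b) (hx : ‖x‖ ≤ 1) (hV : ‖V‖ ≤ 1)
    (hw : ‖w‖ ≤ 1) (hd1 : ‖d1‖ ≤ n) (hd2 : ‖d2‖ ≤ n ^ 2) (hμ0 : 0 ≤ μ) (hμ : μ ≤ n * b ^ 2 / 2)
    (ha : |a - 1| ≤ b ^ 2) (ha' : |a - 1 + b ^ 2 / 2| ≤ b ^ 3 / 2)
    (hR : ‖(a : ℂ) • (1 : A) + s • V‖ ≤ 1) (hr : ‖r‖ ≤ ρ) :
    ‖((a : ℂ) • (1 : A) + s • V) * x *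
        (w + s • d1 - ((b ^ 2 : ℝ) : ℂ) • d2 - (μ : ℂ) • w + r) -
      (x * w + s • (x * d1 + V * x * w) - ((b ^ 2 : ℝ) : ℂ) • (x * d2 + V * x * d1) -
        ((μ + b ^ 2 / 2 : ℝ) : ℂ) • (x * w))‖ ≤ (1 / 2 + 2 * n + 2 * n ^ 2) * b ^ 3 + ρ := by
  have hid : ((a : ℂ) • (1 : A) + s • V) * x *
        (w + s • d1 - ((b ^ 2 : ℝ) : ℂ) • d2 - (μ : ℂ) • w + r) -
      (x * w + s • (x * d1 + V * x * w) - ((b ^ 2 : ℝ) : ℂ) • (x * d2 + V * x * d1) -
        ((μ + b ^ 2 / 2 : ℝ) : ℂ) • (x * w)) =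
      ((a - 1 + b ^ 2 / 2 : ℝ) : ℂ) • (x * w) + (((a - 1 : ℝ) : ℂ) * s) • (x * d1) +
      (-(((a - 1) * b ^ 2 : ℝ) : ℂ)) • (x * d2) + (-(((a - 1) * μ : ℝ) : ℂ)) • (x * w) +
      (-(s * ((b ^ 2 : ℝ) : ℂ))) • (V * x * d2) + (-(s * (μ : ℂ))) • (V * x * w) +
      ((a : ℂ) • (1 : A) + s • V) * x * r + (s * s + ((b ^ 2 : ℝ) : ℂ)) • (V * x * d1) := by
    simp only [mul_add, add_mul, mul_sub, smul_mul_assoc, mul_smul_comm, one_mul, smul_add]
    push_cast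
    module
  rw [hid, hs, neg_add_cancel, zero_smul, add_zero]
  have hb2 : 0 ≤ b ^ 2 := by positivity
  have hb3 : 0 ≤ b ^ 3 := by positivity
  have hb43 : b ^ 4 ≤ b ^ 3 := by
    have : b ^ 4 = b ^ 3 * b := by ring
    rw [this]; nlinarith
  have hxw : ‖x * w‖ ≤ 1 := mul_le1 hx hw
  have hxd1 : ‖x * d1‖ ≤ n := mul_le hx hd1
  have hxd2 : ‖x * d2‖ ≤ n ^ 2 := mul_le hx hd2
  have hVx : ‖V * x‖ ≤ 1 := mul_le1 hV hx
  have hVxw : ‖V * x * w‖ ≤ 1 := mul_le1 hVx hw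
  have hVxd2 : ‖V * x * d2‖ ≤ n ^ 2 := mul_le hVx hd2
  have e1 : ‖((a - 1 + b ^ 2 / 2 : ℝ) : ℂ)‖ ≤ b ^ 3 / 2 := by
    rw [Complex.norm_real, Real.norm_eq_abs]; exact ha'
  have ea : ‖((a - 1 : ℝ) : ℂ)‖ ≤ b ^ 2 := by
    rw [Complex.norm_real, Real.norm_eq_abs]; exact ha
  have e2 : ‖((a - 1 : ℝ) : ℂ) * s‖ ≤ b ^ 2 * b := by
    rw [norm_mul]; exact mul_le_mul ea hsn (norm_nonneg _) hb2
  have e3 : ‖-(((a - 1) * b ^ 2 : ℝ) : ℂ)‖ ≤ b ^ 2 * b ^ 2 := by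
    rw [norm_neg, Complex.norm_real, Real.norm_eq_abs, abs_mul, abs_of_nonneg hb2]
    exact mul_le_mul_of_nonneg_right ha hb2
  have e4 : ‖-(((a - 1) * μ : ℝ) : ℂ)‖ ≤ b ^ 2 * (n * b ^ 2 / 2) := by
    rw [norm_neg, Complex.norm_real, Real.norm_eq_abs, abs_mul, abs_of_nonneg hμ0]
    exact mul_le_mul ha hμ hμ0 hb2
  have e5 : ‖-(s * ((b ^ 2 : ℝ) : ℂ))‖ ≤ b * b ^ 2 := by
    rw [norm_neg, norm_mul, Complex.norm_real, Real.norm_eq_abs, abs_of_nonneg hb2]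
    exact mul_le_mul_of_nonneg_right hsn hb2
  have e6 : ‖-(s * (μ : ℂ))‖ ≤ b * (n * b ^ 2 / 2) := by
    rw [norm_neg, norm_mul, Complex.norm_real, Real.norm_eq_abs, abs_of_nonneg hμ0]
    exact mul_le_mul hsn hμ hμ0 hb0
  have f1 := smul_le e1 hxw
  have f2 := smul_le e2 hxd1
  have f3 := smul_le e3 hxd2
  have f4 := smul_le e4 hxw
  have f5 := smul_le e5 hVxd2
  have f6 := smul_le e6 hVxw
  have f7 : ‖((a : ℂ) • (1 : A) + s • V) * x * r‖ ≤ ρ := mul_le (mul_le1 hR hx) hr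
  refine (norm_add_le _ _).trans ?_
  refine (add_le_add ((norm_add_le _ _).trans (add_le_add ((norm_add_le _ _).trans
    (add_le_add ((norm_add_le _ _).trans (add_le_add ((norm_add_le _ _).trans
    (add_le_add ((norm_add_le _ _).trans (add_le_add f1 f2)) f3)) f4)) f5)) f6)) f7).trans ?_
  have hn2 : 0 ≤ n ^ 2 := by positivity
  nlinarith [mul_le_mul_of_nonneg_left hb43 hn2, mul_le_mul_of_nonneg_left hb43 hn]

lemma star_rot (V : A) (hVs : star V = V) (b ε : ℝ) :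
    star (rot V b ε) = ((Real.sqrt (1 - b ^ 2) : ℝ) : ℂ) • (1 : A) +
      (-(Complex.I * (b * ε : ℝ))) • V := by
  unfold rot
  rw [star_add, star_smul, star_smul, hVs, star_one]
  congr 2
  · simp
  · simp [Complex.conj_ofReal]

lemma sqrt_facts (b : ℝ) (hb0 : 0 ≤ b) (hb1 : b ≤ 1) :
    |Real.sqrt (1 - b ^ 2) - 1| ≤ b ^ 2 ∧
      |Real.sqrt (1 - b ^ 2) - 1 + b ^ 2 / 2| ≤ b ^ 3 / 2 := by
  have hb2 : b ^ 2 ≤ 1 := by nlinarith
  have h0 : 0 ≤ 1 - b ^ 2 := by linarith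
  have u : Real.sqrt (1 - b ^ 2) ≤ 1 - b ^ 2 / 2 := by
    rw [Real.sqrt_le_left (by nlinarith)]
    nlinarith [sq_nonneg (b ^ 2)]
  have l : 1 - b ^ 2 / 2 - b ^ 4 / 2 ≤ Real.sqrt (1 - b ^ 2) := by
    apply Real.le_sqrt_of_sq_le
    have e : (1 - b ^ 2 / 2 - b ^ 4 / 2) ^ 2 =
        (1 - b ^ 2) * (1 - 3 * b ^ 4 / 4 - b ^ 6 / 4) := by ring
    rw [e]
    have : (1 - 3 * b ^ 4 / 4 - b ^ 6 / 4) ≤ 1 := by
      have : 0 ≤ b ^ 4 := by positivity
      have : 0 ≤ b ^ 6 := by positivity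
      linarith
    nlinarith
  have hb43 : b ^ 4 ≤ b ^ 3 := by
    have : b ^ 4 = b ^ 3 * b := by ring
    rw [this]; nlinarith [pow_nonneg hb0 3]
  have hb42 : b ^ 4 ≤ b ^ 2 := by
    have : b ^ 4 = b ^ 2 * b ^ 2 := by ring
    rw [this]; nlinarith [pow_nonneg hb0 2]
  have hb3 : 0 ≤ b ^ 3 := by positivity
  constructor
  · rw [abs_le]; constructor <;> nlinarith [pow_nonneg hb0 2]
  · rw [abs_le]; constructor <;> linarith

end W1aux

/-- W1: expansion of a word under one step. -/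
theorem expand {J : Type} (c : Fin 4 → A) (hc : ∀ i, ‖c i‖ ≤ 1) (y : J → A) (hy : ∀ j, ‖y j‖ ≤ 1)
    (V : A) (hV : ‖V‖ ≤ 1) (hVs : star V = V) (b ε : ℝ) (hb0 : 0 ≤ b) (hb1 : b ≤ 1)
    (hε : ε ^ 2 = 1) (hR : ‖rot V b ε‖ ≤ 1) (i : Fin 4) (L : List (Lt J)) :
    ‖wv (upd c i (rot V b ε)) y L - (wv c y L + (Complex.I * (b * ε : ℝ)) • D1 c y i V L -
      ((b ^ 2 : ℝ) : ℂ) • D2 c y i V L - (((cnt i L : ℝ) * b ^ 2 / 2 : ℝ) : ℂ) • wv c y L)‖ ≤
      5 * (L.length : ℝ) ^ 3 * b ^ 3 := by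
  induction L with
  | nil => simp [wv, D1, D2, cnt]
  | cons p L ih =>
    obtain ⟨k, e, j⟩ := p
    obtain ⟨h1, h2, h3, h4⟩ := wv_bounds c hc y hy V hV i L
    have hn0 : (0 : ℝ) ≤ (L.length : ℝ) := Nat.cast_nonneg _
    have hb3 : 0 ≤ b ^ 3 := by positivity
    obtain ⟨sq1, sq2⟩ := sqrt_facts b hb0 hb1
    set s : ℂ := Complex.I * (b * ε : ℝ) with hsdef
    have hss : s * s = -((b ^ 2 : ℝ) : ℂ) := by
      have h : ((ε : ℂ)) ^ 2 = 1 := by exact_mod_cast hε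
      rw [hsdef]; push_cast
      linear_combination (Complex.I ^ 2 * (b : ℂ) ^ 2) * h + (b : ℂ) ^ 2 * Complex.I_sq
    have hsn : ‖s‖ ≤ b := by
      have habs : |ε| = 1 := by
        have h0 : (|ε|) ^ 2 = 1 := by rw [sq_abs]; exact hε
        nlinarith [abs_nonneg ε]
      rw [hsdef, norm_mul, Complex.norm_I, one_mul, Complex.norm_real, Real.norm_eq_abs, abs_mul,
        habs, mul_one, abs_of_nonneg hb0]
    set W := wv (upd c i (rot V b ε)) y L with hW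
    set w := wv c y L with hw
    set d1 := D1 c y i V L with hd1
    set d2 := D2 c y i V L with hd2
    set μ : ℝ := (cnt i L : ℝ) * b ^ 2 / 2 with hμ
    have hμ0 : 0 ≤ μ := by positivity
    have hμ1 : μ ≤ (L.length : ℝ) * b ^ 2 / 2 := by
      have : (cnt i L : ℝ) ≤ (L.length : ℝ) := by exact_mod_cast h4
      rw [hμ]; gcongr
    set r := W - (w + s • d1 - ((b ^ 2 : ℝ) : ℂ) • d2 - (μ : ℂ) • w) with hr
    have hWr : W = w + s • d1 - ((b ^ 2 : ℝ) : ℂ) • d2 - (μ : ℂ) • w + r := by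
      rw [hr]; abel
    have hfin : (1 / 2 + 2 * (L.length : ℝ) + 2 * (L.length : ℝ) ^ 2) * b ^ 3 +
        5 * (L.length : ℝ) ^ 3 * b ^ 3 ≤ 5 * ((L.length : ℝ) + 1) ^ 3 * b ^ 3 := by
      have : (1 / 2 + 2 * (L.length : ℝ) + 2 * (L.length : ℝ) ^ 2) + 5 * (L.length : ℝ) ^ 3 ≤
          5 * ((L.length : ℝ) + 1) ^ 3 := by nlinarith [sq_nonneg (L.length : ℝ)]
      calc _ = ((1 / 2 + 2 * (L.length : ℝ) + 2 * (L.length : ℝ) ^ 2) +
          5 * (L.length : ℝ) ^ 3) * b ^ 3 := by ring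
        _ ≤ _ := by gcongr
    by_cases hk : k = i
    · subst hk
      cases e with
      | true =>
        have hcl : cl (upd c k (rot V b ε)) k true = c k * rot V b ε := by
          simp [cl, upd]
        simp only [wv, D1, D2, cnt, hcl, if_true, List.length_cons,
          Nat.cast_add, Nat.cast_one, ← hW, ← hw, ← hd1, ← hd2]
        simp only [cl, if_true]
        have key := core (y j) V w d1 d2 r s (Real.sqrt (1 - b ^ 2)) b μ (L.length : ℝ)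
          (5 * (L.length : ℝ) ^ 3 * b ^ 3) hb0 hb1 hn0 hss hsn (hy j) hV h1 h2 h3 hμ0 hμ1 sq1 sq2
          hR ih
        rw [← hWr] at key
        have hμ' : (1 + (cnt k L : ℝ)) * b ^ 2 / 2 = μ + b ^ 2 / 2 := by rw [hμ]; ring
        rw [hμ']
        have hrot : rot V b ε = ((Real.sqrt (1 - b ^ 2) : ℝ) : ℂ) • (1 : A) + s • V := rfl
        rw [← hrot] at key
        generalize rot V b ε = R at key ⊢
        have hid : c k * R * y j * W - (c k * y j * w +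
            s • (c k * y j * d1 + c k * V * y j * w) -
            ((b ^ 2 : ℝ) : ℂ) • (c k * y j * d2 + c k * V * y j * d1) -
            ((μ + b ^ 2 / 2 : ℝ) : ℂ) • (c k * y j * w)) =
            c k * (R * y j * W -
      (y j * w + s • (y j * d1 + V * y j * w) - ((b ^ 2 : ℝ) : ℂ) • (y j * d2 + V * y j * d1) -
        ((μ + b ^ 2 / 2 : ℝ) : ℂ) • (y j * w))) := by
          simp only [mul_sub, mul_add, mul_smul_comm, mul_assoc]
        rw [hid]
        exact (mul_le (hc k) key).trans hfin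
      | false =>
        have hcl : cl (upd c k (rot V b ε)) k false = star (c k * rot V b ε) := by
          simp [cl, upd]
        simp only [wv, D1, D2, cnt, hcl, if_true, List.length_cons,
          Nat.cast_add, Nat.cast_one, Bool.false_eq_true, if_false, ← hW, ← hw, ← hd1, ← hd2]
        simp only [cl, Bool.false_eq_true, if_false]
        have hsn' : ‖-s‖ ≤ b := by rw [norm_neg]; exact hsn
        have hss' : (-s) * (-s) = -((b ^ 2 : ℝ) : ℂ) := by rw [neg_mul_neg]; exact hss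
        have hd1' : ‖-d1‖ ≤ (L.length : ℝ) := by rw [norm_neg]; exact h2
        have hst : star (rot V b ε) = ((Real.sqrt (1 - b ^ 2) : ℝ) : ℂ) • (1 : A) + (-s) • V :=
          star_rot V hVs b ε
        have hx : ‖star (c k) * y j‖ ≤ 1 := mul_le1 (by rw [norm_star]; exact hc k) (hy j)
        have hR' : ‖((Real.sqrt (1 - b ^ 2) : ℝ) : ℂ) • (1 : A) + (-s) • V‖ ≤ 1 := by
          rw [← hst, norm_star]; exact hR
        have key := core (star (c k) * y j) V w (-d1) d2 r (-s) (Real.sqrt (1 - b ^ 2)) b μ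
          (L.length : ℝ) (5 * (L.length : ℝ) ^ 3 * b ^ 3) hb0 hb1 hn0 hss' hsn' hx hV h1 hd1' h3
          hμ0 hμ1 sq1 sq2 hR' ih
        have hWr' : W = w + (-s) • (-d1) - ((b ^ 2 : ℝ) : ℂ) • d2 - (μ : ℂ) • w + r := by
          rw [neg_smul_neg]; exact hWr
        rw [← hWr', ← hst] at key
        have hμ' : (1 + (cnt k L : ℝ)) * b ^ 2 / 2 = μ + b ^ 2 / 2 := by rw [hμ]; ring
        rw [hμ', star_mul]
        generalize star (rot V b ε) = R at key ⊢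
        generalize star (c k) = x at key ⊢
        have hid : R * x * y j * W - (x * y j * w +
            s • (x * y j * d1 + -(V * x * y j * w)) -
            ((b ^ 2 : ℝ) : ℂ) • (x * y j * d2 + -(V * x * y j * d1)) -
            ((μ + b ^ 2 / 2 : ℝ) : ℂ) • (x * y j * w)) =
            (R * (x * y j) * W - (x * y j * w + (-s) • (x * y j * -d1 + V * (x * y j) * w) -
              ((b ^ 2 : ℝ) : ℂ) • (x * y j * d2 + V * (x * y j) * -d1) -
              ((μ + b ^ 2 / 2 : ℝ) : ℂ) • (x * y j * w))) := by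
          simp only [mul_neg, neg_smul, smul_add, smul_neg, mul_assoc]
          abel
        rw [hid]
        exact key.trans hfin
    · have hcl : cl (upd c i (rot V b ε)) k e = cl c k e := by
        simp [cl, upd, Function.update_of_ne hk]
      simp only [wv, D1, D2, cnt, hcl, if_neg hk, add_zero, zero_add, List.length_cons,
        Nat.cast_add, Nat.cast_one, ← hW, ← hw, ← hd1, ← hd2]
      have hcy : ‖cl c k e * y j‖ ≤ 1 := mul_le1 (cl_le c hc k e) (hy j)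
      have hid : cl c k e * y j * W - (cl c k e * y j * w + s • (cl c k e * y j * d1) -
          ((b ^ 2 : ℝ) : ℂ) • (cl c k e * y j * d2) - (μ : ℂ) • (cl c k e * y j * w)) =
          cl c k e * y j * (W - (w + s • d1 - ((b ^ 2 : ℝ) : ℂ) • d2 - (μ : ℂ) • w)) := by
        simp only [mul_sub, mul_add, mul_smul_comm]
      have h5 := mul_le hcy ih
      rw [← hid] at h5
      refine h5.trans ?_
      gcongr
      linarith

end Pool.Agent.H270G
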